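import Pool.Agent.Helper69.UX.StA
import Pool.Agent.Helper6.CN.M_RHO
import Pool.Agent.Helper14.CN.M_MKB
import Pool.Agent.Helper85.CN.M_HVB

set_option autoImplicit false

/-!
# Project UX, module DLT: overlapping pairs of independent `T`-sets
-/

namespace Pool.Agent.Helper66.UX

open Finset Filter Pool.Agent.Helper82.CN Pool.Agent.Helper11.PV Pool.Agent.Helper69.VX
  Pool.Agent.Helper69.UX

private lemma sup_DLT {n k l : ℕ} (A : Finset (Fin n)) (hA : A.card = l) :
    (((univ : Finset (Fin n)).powersetCard k).filter (fun S => A ⊆ S)).card ≤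
      (n - l).choose (k - l) := by
  have h : (n - l).choose (k - l) = ((univ \ A).powersetCard (k - l)).card := by
    rw [Finset.card_powersetCard, Finset.card_sdiff_of_subset (Finset.subset_univ _), Finset.card_univ,
      Fintype.card_fin, hA]
  rw [h]
  apply Finset.card_le_card_of_injOn (fun S => S \ A)
  · intro S hS
    rw [Finset.mem_coe, Finset.mem_filter, Finset.mem_powersetCard] at hS
    rw [Finset.mem_coe, Finset.mem_powersetCard]
    refine ⟨Finset.sdiff_subset_sdiff (Finset.subset_univ _) (Finset.Subset.refl _), ?_⟩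
    show (S \ A).card = k - l
    rw [Finset.card_sdiff_of_subset hS.2, hS.1.2, hA]
  · intro S hS T hT hST
    rw [Finset.mem_coe, Finset.mem_filter] at hS hT
    have h1 : S \ A = T \ A := hST
    rw [← Finset.sdiff_union_of_subset hS.2, ← Finset.sdiff_union_of_subset hT.2, h1]

/-- the pairs of `k`-sets -/
private def PP_DLT (n k : ℕ) : Finset (Finset (Fin n) × Finset (Fin n)) :=
  (univ : Finset (Fin n)).powersetCard k ×ˢ (univ : Finset (Fin n)).powersetCard k

open Classical in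
private lemma count_DLT (n k l : ℕ) :
    ((PP_DLT n k).filter (fun x => (x.1 ∩ x.2).card = l)).card ≤
      n.choose l * ((n - l).choose (k - l) * (n - l).choose (k - l)) := by
  have h1 : (PP_DLT n k).filter (fun x => (x.1 ∩ x.2).card = l) ⊆
      ((univ : Finset (Fin n)).powersetCard l).biUnion (fun A =>
        (((univ : Finset (Fin n)).powersetCard k).filter (fun S => A ⊆ S)) ×ˢ
          (((univ : Finset (Fin n)).powersetCard k).filter (fun S => A ⊆ S))) := by
    rintro ⟨S, T⟩ hx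
    rw [Finset.mem_filter, PP_DLT, Finset.mem_product] at hx
    rw [Finset.mem_biUnion]
    refine ⟨S ∩ T, Finset.mem_powersetCard.2 ⟨Finset.subset_univ _, hx.2⟩, ?_⟩
    rw [Finset.mem_product, Finset.mem_filter, Finset.mem_filter]
    exact ⟨⟨hx.1.1, Finset.inter_subset_left⟩, ⟨hx.1.2, Finset.inter_subset_right⟩⟩
  refine (Finset.card_le_card h1).trans (Finset.card_biUnion_le.trans ?_)
  have h2 : n.choose l * ((n - l).choose (k - l) * (n - l).choose (k - l)) =
      ∑ _A ∈ (univ : Finset (Fin n)).powersetCard l,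
        (n - l).choose (k - l) * (n - l).choose (k - l) := by
    rw [Finset.sum_const, Finset.card_powersetCard, Finset.card_univ, Fintype.card_fin,
      smul_eq_mul]
  rw [h2]
  refine Finset.sum_le_sum fun A hA => ?_
  rw [Finset.card_product]
  exact Nat.mul_le_mul (sup_DLT A (Finset.mem_powersetCard.1 hA).2)
    (sup_DLT A (Finset.mem_powersetCard.1 hA).2)

open Classical in
/-- the pairs with `l` common vertices -/
private lemma level_DLT (p : ℝ) (hp1 : p < 1) (n T l : ℕ) (hlT : l ≤ T) (hTn : T ≤ n) :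
    ∑ x ∈ PP_DLT n T, (if (x.1 ∩ x.2).card = l then
      (1 - p) ^ (2 * T.choose 2) / (1 - p) ^ (l.choose 2) else 0) ≤
    Mk p n T ^ 2 * ((T.choose l : ℝ) ^ 2 / Mk p n l) := by
  set q : ℝ := 1 - p with hq
  have hq0 : 0 < q := by rw [hq]; linarith
  have hqne : q ≠ 0 := hq0.ne'
  rw [← Finset.sum_filter, Finset.sum_const, nsmul_eq_mul]
  have hln : l ≤ n := hlT.trans hTn
  have hcn : (0 : ℝ) < n.choose l := by exact_mod_cast Nat.choose_pos hln
  have hcm : (n.choose T : ℝ) * (T.choose l : ℝ) =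
      (n.choose l : ℝ) * ((n - l).choose (T - l) : ℝ) := by
    exact_mod_cast Nat.choose_mul (n := n) hlT
  have hcount : (((PP_DLT n T).filter (fun x => (x.1 ∩ x.2).card = l)).card : ℝ) ≤
      (n.choose l : ℝ) * (((n - l).choose (T - l) : ℝ) * ((n - l).choose (T - l) : ℝ)) := by
    exact_mod_cast count_DLT n T l
  calc (((PP_DLT n T).filter (fun x => (x.1 ∩ x.2).card = l)).card : ℝ) *
        (q ^ (2 * T.choose 2) / q ^ (l.choose 2))
      ≤ (n.choose l : ℝ) * (((n - l).choose (T - l) : ℝ) * ((n - l).choose (T - l) : ℝ)) *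
        (q ^ (2 * T.choose 2) / q ^ (l.choose 2)) :=
        mul_le_mul_of_nonneg_right hcount (by positivity)
    _ = Mk p n T ^ 2 * ((T.choose l : ℝ) ^ 2 / Mk p n l) := by
        unfold Mk
        rw [← hq]
        have e1 : ((n.choose T : ℝ) * q ^ T.choose 2) ^ 2 *
            ((T.choose l : ℝ) ^ 2 / ((n.choose l : ℝ) * q ^ l.choose 2)) =
            ((n.choose T : ℝ) * (T.choose l : ℝ)) ^ 2 * q ^ (2 * T.choose 2) /
              ((n.choose l : ℝ) * q ^ l.choose 2) := by
          rw [mul_comm 2 (T.choose 2), pow_mul]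
          ring
        rw [e1, hcm]
        field_simp

open Classical in
/-- the deterministic bound -/
private lemma main_DLT (p : ℝ) (hp1 : p < 1) (n T : ℕ) (hT : 2 ≤ T) (hTn : T ≤ n) :
    ∑ S ∈ (univ : Finset (Fin n)).powersetCard T,
    ∑ S' ∈ ((univ : Finset (Fin n)).powersetCard T).filter (fun S' => 2 ≤ (S ∩ S').card),
      (1 - p) ^ (2 * T.choose 2 - (S ∩ S').card.choose 2) ≤
    Mk p n T + Mk p n T ^ 2 * ∑ l ∈ Icc 2 (T - 1), (T.choose l : ℝ) ^ 2 / Mk p n l := by
  set q : ℝ := 1 - p with hq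
  have hq0 : 0 < q := by rw [hq]; linarith
  have hqne : q ≠ 0 := hq0.ne'
  have hterm : ∀ S ∈ (univ : Finset (Fin n)).powersetCard T,
      ∀ S' ∈ ((univ : Finset (Fin n)).powersetCard T).filter (fun S' => 2 ≤ (S ∩ S').card),
      q ^ (2 * T.choose 2 - (S ∩ S').card.choose 2) ≤
        (if S = S' then q ^ (T.choose 2) else 0) +
        ∑ l ∈ Icc 2 (T - 1), (if (S ∩ S').card = l then
          q ^ (2 * T.choose 2) / q ^ (l.choose 2) else 0) := by
    intro S hS S' hS'
    rw [Finset.mem_filter] at hS'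
    obtain ⟨hS', h2⟩ := hS'
    rw [Finset.mem_powersetCard] at hS hS'
    by_cases he : S = S'
    · subst he
      rw [if_pos rfl, Finset.inter_self, hS.2]
      have h3 : 2 * T.choose 2 - T.choose 2 = T.choose 2 := by omega
      rw [h3]
      have h4 : 0 ≤ ∑ l ∈ Icc 2 (T - 1), (if T = l then
          q ^ (2 * T.choose 2) / q ^ (l.choose 2) else 0) := by
        refine Finset.sum_nonneg fun l _ => ?_
        split_ifs <;> positivity
      linarith
    · have hlt : (S ∩ S').card ≤ T - 1 := by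
        have h3 : (S ∩ S').card < T := by
          rw [← hS.2]
          refine Finset.card_lt_card ?_
          refine ⟨Finset.inter_subset_left, fun h => he ?_⟩
          have h5 : S ⊆ S' := fun x hx => (Finset.mem_inter.1 (h hx)).2
          exact Finset.eq_of_subset_of_card_le h5 (by rw [hS.2, hS'.2])
        omega
      rw [if_neg he, zero_add, Finset.sum_ite_eq, if_pos (Finset.mem_Icc.2 ⟨h2, hlt⟩)]
      have h6 : (S ∩ S').card.choose 2 ≤ 2 * T.choose 2 := by
        have := Nat.choose_le_choose 2 (show (S ∩ S').card ≤ T by omega)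
        omega
      rw [le_div_iff₀ (by positivity), ← pow_add, Nat.sub_add_cancel h6]
  have hinner : ∀ S ∈ (univ : Finset (Fin n)).powersetCard T,
      ∑ S' ∈ ((univ : Finset (Fin n)).powersetCard T).filter (fun S' => 2 ≤ (S ∩ S').card),
        q ^ (2 * T.choose 2 - (S ∩ S').card.choose 2) ≤
      q ^ (T.choose 2) + ∑ S' ∈ (univ : Finset (Fin n)).powersetCard T,
        ∑ l ∈ Icc 2 (T - 1), (if (S ∩ S').card = l then
          q ^ (2 * T.choose 2) / q ^ (l.choose 2) else 0) := by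
    intro S hS
    refine (Finset.sum_le_sum (hterm S hS)).trans ?_
    refine (Finset.sum_le_sum_of_subset_of_nonneg (Finset.filter_subset _ _) ?_).trans ?_
    · intro S' _ _
      refine add_nonneg ?_ (Finset.sum_nonneg fun l _ => ?_)
      · split_ifs <;> positivity
      · split_ifs <;> positivity
    · rw [Finset.sum_add_distrib, Finset.sum_ite_eq, if_pos hS]
  refine (Finset.sum_le_sum hinner).trans ?_
  rw [Finset.sum_add_distrib]
  refine add_le_add (le_of_eq ?_) ?_
  · rw [Finset.sum_const, Finset.card_powersetCard, Finset.card_univ, Fintype.card_fin,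
      nsmul_eq_mul]
    rfl
  · have h1 : ∑ S ∈ (univ : Finset (Fin n)).powersetCard T,
        ∑ S' ∈ (univ : Finset (Fin n)).powersetCard T,
        ∑ l ∈ Icc 2 (T - 1), (if (S ∩ S').card = l then
          q ^ (2 * T.choose 2) / q ^ (l.choose 2) else 0) =
        ∑ l ∈ Icc 2 (T - 1), ∑ x ∈ PP_DLT n T, (if (x.1 ∩ x.2).card = l then
          q ^ (2 * T.choose 2) / q ^ (l.choose 2) else 0) := by
      rw [Finset.sum_comm, PP_DLT, ← Finset.sum_product_right']
      exact Finset.sum_comm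
    rw [h1, Finset.mul_sum]
    refine Finset.sum_le_sum fun l hl => ?_
    rw [Finset.mem_Icc] at hl
    exact level_DLT p hp1 n T l (by omega) hTn

theorem hDLT : StMKS → StDLT := by
  intro hMKS p ε hp0 hp1 hε0 hε1
  have hRHO : StRho :=
    Pool.Agent.Helper6.CN.tRHO Pool.Agent.Helper14.CN.tMKB Pool.Agent.Helper85.CN.tHVB
  have hp1' : p < 1 := by
    have : (0 : ℝ) < 1 / Real.exp 2 := by positivity
    linarith
  obtain ⟨n1, hn1⟩ := hMKS p ε hp0 hp1 hε0 hε1
  obtain ⟨n2, hn2⟩ := hRHO p 3 (ε / 4) hp0 hp1' (by norm_num) (by linarith)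
  refine ⟨max n1 (max n2 1), ?_⟩
  intro n T th hn hW
  obtain ⟨hT4, hT8, hTn, hM1, hM2, -, -⟩ := hn1 n T th ((le_max_left _ _).trans hn) hW
  obtain ⟨hW1, hW2, hW3⟩ := hW
  have hnpos : 1 ≤ n := (le_max_right n2 1).trans ((le_max_right n1 _).trans hn)
  have hn0 : (0 : ℝ) < n := by exact_mod_cast hnpos
  have hn1' : (1 : ℝ) ≤ n := by exact_mod_cast hnpos
  have hq0 : 0 < 1 - p := by linarith
  have hal : al p n = (T : ℝ) + 1 + th := hW1
  have hcast : ((T - 1 : ℕ) : ℝ) = (T : ℝ) - 1 := by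
    rw [Nat.cast_sub (by omega)]
    norm_num
  have hR := hn2 n (T - 1) ((le_max_left n2 1).trans ((le_max_right n1 _).trans hn)) (by
    rw [hal, hcast, abs_le]
    constructor <;> linarith)
  have hexp : al p n - ((T - 1 : ℕ) : ℝ) = 2 + th := by
    rw [hal, hcast]
    ring
  rw [hexp] at hR
  have hpw : (n : ℝ) ^ (-(2 + th)) ≤ (n : ℝ) ^ (-(2 : ℝ)) :=
    Real.rpow_le_rpow_of_exponent_le hn1' (by linarith)
  have hR2 : ∑ l ∈ Icc 2 (T - 1), ((T - 1).choose l : ℝ) ^ 2 / Mk p n l ≤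
      2 * (n : ℝ) ^ (ε / 4 - 2) := by
    refine hR.trans ?_
    have h1 : (n : ℝ) ^ (ε / 4) * ((n : ℝ) ^ (-(2 + th)) + (n : ℝ) ^ (-(2 : ℝ))) ≤
        (n : ℝ) ^ (ε / 4) * (2 * (n : ℝ) ^ (-(2 : ℝ))) := by
      refine mul_le_mul_of_nonneg_left ?_ (by positivity)
      linarith
    refine h1.trans (le_of_eq ?_)
    rw [show ε / 4 - 2 = ε / 4 + (-2 : ℝ) by ring, Real.rpow_add hn0]
    ring
  have hMpos : ∀ l, l ≤ n → 0 < Mk p n l := by
    intro l hl
    unfold Mk
    have : (0 : ℝ) < n.choose l := by exact_mod_cast Nat.choose_pos hl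
    positivity
  have hR3 : ∑ l ∈ Icc 2 (T - 1), (T.choose l : ℝ) ^ 2 / Mk p n l ≤
      (T : ℝ) ^ 2 * (2 * (n : ℝ) ^ (ε / 4 - 2)) := by
    refine le_trans ?_ (mul_le_mul_of_nonneg_left hR2 (by positivity))
    rw [Finset.mul_sum]
    refine Finset.sum_le_sum fun l hl => ?_
    rw [Finset.mem_Icc] at hl
    rw [← mul_div_assoc]
    refine div_le_div_of_nonneg_right ?_ (hMpos l (by omega)).le
    rw [← mul_pow]
    refine pow_le_pow_left₀ (by positivity) ?_ 2
    have h1 := Nat.choose_mul_succ_eq (T - 1) l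
    have h2 : T - 1 + 1 = T := by omega
    rw [h2] at h1
    have h3 : T.choose l ≤ T * (T - 1).choose l := by
      have h4 : 1 ≤ T - l := by omega
      calc T.choose l = T.choose l * 1 := by ring
        _ ≤ T.choose l * (T - l) := Nat.mul_le_mul_left _ h4
        _ = T * (T - 1).choose l := by rw [← h1]; ring
    exact_mod_cast h3
  refine (main_DLT p hp1' n T (by omega) hTn).trans ?_
  have hMT := hMpos T hTn
  rw [mul_add, mul_one]
  refine add_le_add le_rfl ?_
  rw [sq, mul_assoc]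
  refine mul_le_mul_of_nonneg_left ?_ hMT.le
  have hTr : (4 : ℝ) ≤ T := by exact_mod_cast hT4
  have h2T : (T : ℝ) ^ 2 * 2 ≤ (n : ℝ) ^ (ε / 8) := by
    refine le_trans ?_ hT8
    have h1 : (2 : ℝ) ≤ (T : ℝ) ^ 6 := by
      calc (2 : ℝ) ≤ 4 ^ 6 := by norm_num
        _ ≤ (T : ℝ) ^ 6 := pow_le_pow_left₀ (by norm_num) hTr 6
    calc (T : ℝ) ^ 2 * 2 ≤ (T : ℝ) ^ 2 * (T : ℝ) ^ 6 :=
          mul_le_mul_of_nonneg_left h1 (by positivity)
      _ = (T : ℝ) ^ 8 := by ring
  calc Mk p n T * ∑ l ∈ Icc 2 (T - 1), (T.choose l : ℝ) ^ 2 / Mk p n l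
      ≤ (n : ℝ) ^ (1 + th + ε / 8) * ((T : ℝ) ^ 2 * (2 * (n : ℝ) ^ (ε / 4 - 2))) := by
        refine mul_le_mul hM2 hR3 ?_ (by positivity)
        refine Finset.sum_nonneg fun l hl => ?_
        rw [Finset.mem_Icc] at hl
        exact div_nonneg (sq_nonneg _) (hMpos l (by omega)).le
    _ = (n : ℝ) ^ (1 + th + ε / 8) * (((T : ℝ) ^ 2 * 2) * (n : ℝ) ^ (ε / 4 - 2)) := by ring
    _ ≤ (n : ℝ) ^ (1 + th + ε / 8) * ((n : ℝ) ^ (ε / 8) * (n : ℝ) ^ (ε / 4 - 2)) := by
        refine mul_le_mul_of_nonneg_left ?_ (by positivity)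
        exact mul_le_mul_of_nonneg_right h2T (by positivity)
    _ = (n : ℝ) ^ (1 + th + ε / 8 + (ε / 8 + (ε / 4 - 2))) := by
        rw [← Real.rpow_add hn0, ← Real.rpow_add hn0]
    _ ≤ (n : ℝ) ^ (th - 1 + ε) := Real.rpow_le_rpow_of_exponent_le hn1' (by linarith)

end Pool.Agent.Helper66.UX
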