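import Pool.Agent.Helper69.UX.StC

set_option autoImplicit false

/-!
# Project UX, module PAR: existence of the parameters
-/

namespace Pool.Agent.Helper66.UX

open Finset Filter Pool.Agent.Helper82.CN Pool.Agent.Helper11.PV Pool.Agent.Helper69.VX
  Pool.Agent.Helper69.UX

private lemma fact_lower_PAR (k : ℕ) (hk : 1 ≤ k) :
    (k : ℝ) * Real.log k - k ≤ Real.log (k.factorial) := by
  have hk0 : (0 : ℝ) < k := by exact_mod_cast hk
  have h := Real.pow_div_factorial_le_exp (k : ℝ) hk0.le k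
  have hf : (0 : ℝ) < (k.factorial : ℝ) := by exact_mod_cast k.factorial_pos
  have h2 : (k : ℝ) ^ k ≤ Real.exp k * (k.factorial : ℝ) := by
    rwa [div_le_iff₀ hf] at h
  have h3 := Real.log_le_log (by positivity) h2
  rw [Real.log_pow, Real.log_mul (Real.exp_pos _).ne' hf.ne', Real.log_exp] at h3
  linarith

private lemma fact_upper_PAR (k : ℕ) (hk : 1 ≤ k) :
    Real.log (k.factorial) ≤ (k : ℝ) * Real.log k - k + Real.log k + 1 := by
  induction k, hk using Nat.le_induction with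
  | base => simp
  | succ k hk ih =>
    have hk0 : (0 : ℝ) < k := by exact_mod_cast hk
    have hf : (0 : ℝ) < (k.factorial : ℝ) := by exact_mod_cast k.factorial_pos
    have h1 : Real.log ((k : ℝ) / (k + 1)) ≤ (k : ℝ) / (k + 1) - 1 :=
      Real.log_le_sub_one_of_pos (by positivity)
    rw [Real.log_div hk0.ne' (by positivity)] at h1
    have h2 : ((k : ℝ) + 1) * (Real.log k - Real.log (k + 1)) ≤ -1 := by
      have h3 := mul_le_mul_of_nonneg_left h1 (show (0 : ℝ) ≤ (k : ℝ) + 1 by positivity)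
      have h4 : ((k : ℝ) + 1) * ((k : ℝ) / (k + 1) - 1) = -1 := by
        field_simp
        ring
      linarith
    rw [Nat.factorial_succ]
    push_cast
    rw [Real.log_mul (by positivity) hf.ne']
    nlinarith [ih, h2]

private lemma om_pos_PAR (p : ℝ) (hp1 : p < 1) (u : ℕ) : 0 < om p u := by
  unfold om
  have h1 : 0 < 1 - p := by linarith
  have h2 : (0 : ℝ) < (u.factorial : ℝ) := by exact_mod_cast u.factorial_pos
  positivity

private lemma log_om_PAR (p : ℝ) (hp1 : p < 1) (n T : ℕ) :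
    Real.log (om p T) = hv p n T - T * Real.log n := by
  have h1 : 0 < 1 - p := by linarith
  have h2 : (0 : ℝ) < (T.factorial : ℝ) := by exact_mod_cast T.factorial_pos
  unfold om hv bb
  rw [Real.log_div (by positivity) h2.ne', Real.log_pow, one_div, Real.log_inv]
  ring

/-- the bounds at one `ρ` -/
private lemma facts_PAR (L l T m A K mu hvv th η Cp n R S lam : ℝ)
    (hL0 : 0 < L) (hη0 : 0 < η) (hη1 : η ≤ 1) (hCp : 1 ≤ Cp) (hth0 : 1 / 2 ≤ th)
    (hth1 : th ≤ 1) (hl : 1 / η ≤ l) (hT4 : 4 ≤ T)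
    (hlT : Real.log T ≤ η * l / 8) (hT1 : |L * T - 2 * l| ≤ η * l)
    (hmu : |mu - 2 * l| ≤ (6 + Real.log Cp) * (η * l))
    (hm0 : 0 ≤ m) (hmC : m ≤ Cp) (hmT : m ≤ T - 1)
    (hA1 : 1 ≤ A) (hAC : A ≤ Cp) (hn : 0 < n) (hln : Real.log n = l) (hK : K = n / (T - m))
    (hhv : |hvv - (1 + th) * l| ≤ η * l)
    (hnT : 2 * T * l ≤ n) (hR0 : 0 ≤ R) (hR1 : R ≤ l + 1)
    (hS : S = K * (m * (mu - l) - T + m + 1 - Real.log K + Real.log A + hvv) + R)
    (hlam : lam = Real.log (K / A) - mu * T - (hvv - T * l))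
    (hη2 : (6 + Real.log Cp) * η ≤ 1 / 2) (hl2 : 5 / L + 3 + Real.log Cp ≤ l) :
    0 < K ∧ n / T ≤ K ∧ K ≤ n ∧
    |S - K * ((m - 2 / L + th) * l)| ≤
      K * ((Cp * (6 + Real.log Cp) + 1 / L + Cp + 4 + Real.log Cp) * (η * l)) ∧
    lam ≤ -1 ∧ -lam ≤ l ^ 3 := by
  have hηl : 1 ≤ η * l := by
    rw [div_le_iff₀ hη0] at hl
    linarith
  have hl0 : 0 < l := by
    by_contra h
    push Not at h
    have h1 := mul_nonpos_of_nonneg_of_nonpos hη0.le h
    linarith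
  have hl1 : 1 ≤ l := hηl.trans (mul_le_of_le_one_left hl0.le hη1)
  have hT0 : 0 < T := by linarith
  have hlC : 0 ≤ Real.log Cp := Real.log_nonneg hCp
  have hTm : 1 ≤ T - m := by linarith
  have hTm0 : 0 < T - m := by linarith
  have hK0 : 0 < K := by rw [hK]; positivity
  have hKT : n / T ≤ K := by
    rw [hK]
    exact div_le_div_of_nonneg_left hn.le hTm0 (by linarith)
  have hKn : K ≤ n := by
    rw [hK]
    exact div_le_self hn.le hTm
  have hlogK : Real.log K = l - Real.log (T - m) := by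
    rw [hK, Real.log_div hn.ne' hTm0.ne', hln]
  have hlTm0 : 0 ≤ Real.log (T - m) := Real.log_nonneg hTm
  have hlTm1 : Real.log (T - m) ≤ η * l / 8 :=
    (Real.log_le_log hTm0 (by linarith)).trans hlT
  have hlA0 : 0 ≤ Real.log A := Real.log_nonneg hA1
  have hlA1 : Real.log A ≤ Real.log Cp := Real.log_le_log (by linarith) hAC
  have hA0 : 0 < A := by linarith
  rw [abs_le] at hmu hT1 hhv
  have hTL : |T - 2 / L * l| ≤ 1 / L * (η * l) := by
    rw [abs_le]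
    have h1 : T - 2 / L * l = (L * T - 2 * l) / L := by
      field_simp
    rw [h1]
    constructor
    · rw [le_div_iff₀ hL0]
      have h2 : -(1 / L * (η * l)) * L = -(η * l) := by
        field_simp
      rw [h2]
      exact hT1.1
    · rw [div_le_iff₀ hL0]
      have h2 : 1 / L * (η * l) * L = η * l := by
        field_simp
      rw [h2]
      exact hT1.2
  rw [abs_le] at hTL
  refine ⟨hK0, hKT, hKn, ?_, ?_, ?_⟩
  · -- the main estimate
    set c1 : ℝ := 6 + Real.log Cp with hc1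
    have hc1p : 0 < c1 := by rw [hc1]; linarith
    set E : ℝ := m * (mu - 2 * l) - (T - 2 / L * l) + (m + 1) + Real.log (T - m) + Real.log A +
      (hvv - (1 + th) * l) with hE
    have hSE : S - K * ((m - 2 / L + th) * l) = K * E + R := by
      rw [hS, hE, hlogK]
      ring
    have hRK : R ≤ K * (η * l) := by
      have h1 : R ≤ 2 * l := by linarith
      have h2 : 2 ≤ K * η := by
        have h3 : 2 * T ≤ n * η := by
          have h4 : 2 * T * l * η ≤ n * η := mul_le_mul_of_nonneg_right hnT hη0.le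
          have h5 : 2 * T * 1 ≤ 2 * T * (l * η) := by
            refine mul_le_mul_of_nonneg_left ?_ (by positivity)
            linarith
          have h51 : 2 * T * l * η = 2 * T * (l * η) := by ring
          linarith
        have h6 : n / T * η ≤ K * η := mul_le_mul_of_nonneg_right hKT hη0.le
        have h7 : 2 ≤ n / T * η := by
          rw [div_mul_eq_mul_div, le_div_iff₀ hT0]
          exact h3
        linarith
      have h8 : 2 * l ≤ K * η * l := mul_le_mul_of_nonneg_right h2 hl0.le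
      linarith
    have hm1 : |m * (mu - 2 * l)| ≤ Cp * (c1 * (η * l)) := by
      rw [abs_mul, abs_of_nonneg hm0]
      exact mul_le_mul hmC (abs_le.2 hmu) (abs_nonneg _) (by linarith)
    rw [abs_le] at hm1
    have hCηl : Cp + 1 ≤ (Cp + 1) * (η * l) := le_mul_of_one_le_right (by linarith) hηl
    have hlCηl : Real.log Cp ≤ Real.log Cp * (η * l) := le_mul_of_one_le_right hlC hηl
    have hηlnn : 0 ≤ η * l := by linarith
    have hE1 : E ≤ (Cp * c1 + 1 / L + Cp + 3 + Real.log Cp) * (η * l) := by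
      have : (Cp * c1 + 1 / L + Cp + 3 + Real.log Cp) * (η * l) =
        Cp * (c1 * (η * l)) + 1 / L * (η * l) + (Cp + 1) * (η * l) + 2 * (η * l) +
          Real.log Cp * (η * l) := by ring
      rw [this, hE]
      linarith [hm1.2, hTL.1, hhv.2]
    have hE2 : -((Cp * c1 + 1 / L + Cp + 3 + Real.log Cp) * (η * l)) ≤ E := by
      have : (Cp * c1 + 1 / L + Cp + 3 + Real.log Cp) * (η * l) =
        Cp * (c1 * (η * l)) + 1 / L * (η * l) + (Cp + 1) * (η * l) + 2 * (η * l) +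
          Real.log Cp * (η * l) := by ring
      rw [this, hE]
      have h9 : 0 ≤ Real.log Cp * (η * l) := by positivity
      have h10 : 0 ≤ (Cp + 1) * (η * l) := by positivity
      linarith [hm1.1, hTL.2, hhv.1]
    rw [hSE, abs_le]
    have e1 : K * ((Cp * c1 + 1 / L + Cp + 4 + Real.log Cp) * (η * l)) =
        K * ((Cp * c1 + 1 / L + Cp + 3 + Real.log Cp) * (η * l)) + K * (η * l) := by ring
    rw [e1]
    have h11 := mul_le_mul_of_nonneg_left hE1 hK0.le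
    have h12 := mul_le_mul_of_nonneg_left hE2 hK0.le
    have h13 : 0 ≤ K * (η * l) := by positivity
    constructor <;> linarith
  · -- lam ≤ -1
    have hlogKA : Real.log (K / A) = l - Real.log (T - m) - Real.log A := by
      rw [Real.log_div hK0.ne' hA0.ne', hlogK]
    have hmul : l / 2 ≤ mu - l := by
      have h1 : (6 + Real.log Cp) * (η * l) ≤ l / 2 := by
        have h11 := mul_le_mul_of_nonneg_right hη2 hl0.le
        have h12 : (6 + Real.log Cp) * (η * l) = (6 + Real.log Cp) * η * l := by ring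
        linarith
      linarith [hmu.1]
    have h2 : 4 * (l / 2) ≤ T * (mu - l) := mul_le_mul hT4 hmul (by positivity) hT0.le
    have h3 : η * l ≤ l := mul_le_of_le_one_left hl0.le hη1
    have h4 : T * (mu - l) = mu * T - T * l := by ring
    have h5 : (1 + 1 / 2) * l ≤ (1 + th) * l := mul_le_mul_of_nonneg_right (by linarith) hl0.le
    rw [hlam, hlogKA]
    linarith [hhv.1]
  · have hlogKA : Real.log (K / A) = l - Real.log (T - m) - Real.log A := by
      rw [Real.log_div hK0.ne' hA0.ne', hlogK]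
    have hmul : mu - l ≤ 3 / 2 * l := by
      have h1 : (6 + Real.log Cp) * (η * l) ≤ l / 2 := by
        have h11 := mul_le_mul_of_nonneg_right hη2 hl0.le
        have h12 : (6 + Real.log Cp) * (η * l) = (6 + Real.log Cp) * η * l := by ring
        linarith
      linarith [hmu.2]
    have h3 : η * l ≤ l := mul_le_of_le_one_left hl0.le hη1
    have hTu : T ≤ 3 / L * l := by
      have h4 : 1 / L * (η * l) ≤ 1 / L * l := mul_le_mul_of_nonneg_left h3 (by positivity)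
      have h5 : 3 / L * l = 2 / L * l + 1 / L * l := by ring
      linarith [hTL.2]
    have h6 : T * (mu - l) ≤ 3 / L * l * (3 / 2 * l) :=
      (mul_le_mul_of_nonneg_left hmul hT0.le).trans
        (mul_le_mul_of_nonneg_right hTu (by positivity))
    have h7 : -lam ≤ 3 / L * l * (3 / 2 * l) + 3 * l + Real.log Cp := by
      rw [hlam, hlogKA]
      have h71 : (1 + th) * l ≤ 2 * l := mul_le_mul_of_nonneg_right (by linarith) hl0.le
      have h72 : T * (mu - l) = mu * T - T * l := by ring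
      linarith [hhv.2]
    have h8 : 3 / L * l * (3 / 2 * l) ≤ 5 / L * l ^ 2 := by
      have h9 : 0 ≤ 1 / L * l ^ 2 := by positivity
      have h10 : 3 / L * l * (3 / 2 * l) = 9 / 2 * (1 / L * l ^ 2) := by ring
      have h11 : 5 / L * l ^ 2 = 5 * (1 / L * l ^ 2) := by ring
      rw [h10, h11]
      linarith
    have hl21 : 1 ≤ l ^ 2 := one_le_pow₀ hl1
    have h12 : 3 * l ≤ 3 * l ^ 2 := by
      have h121 : l * 1 ≤ l * l := mul_le_mul_of_nonneg_left hl1 hl0.le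
      have h122 : l ^ 2 = l * l := sq l
      linarith
    have h13 : Real.log Cp ≤ Real.log Cp * l ^ 2 := le_mul_of_one_le_right hlC hl21
    have h14 : (5 / L + 3 + Real.log Cp) * l ^ 2 ≤ l * l ^ 2 :=
      mul_le_mul_of_nonneg_right hl2 (by positivity)
    have h15 : l * l ^ 2 = l ^ 3 := by ring
    have h16 : (5 / L + 3 + Real.log Cp) * l ^ 2 = 5 / L * l ^ 2 + 3 * l ^ 2 + Real.log Cp * l ^ 2 := by
      ring
    linarith

private lemma bb_bounds_PAR (p : ℝ) (hp0 : 0 < p) (hp1 : p ≤ 1 - 1 / Real.exp 2) :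
    p < 1 ∧ 0 < bb p ∧ bb p ≤ 2 := by
  have he : (0 : ℝ) < 1 / Real.exp 2 := by positivity
  have hp : p < 1 := by linarith
  have hq : 0 < 1 - p := by linarith
  refine ⟨hp, ?_, ?_⟩
  · unfold bb
    apply Real.log_pos
    rw [lt_div_iff₀ hq]
    linarith
  · unfold bb
    rw [Real.log_le_iff_le_exp (by positivity), div_le_iff₀ hq]
    have h1 : 1 / Real.exp 2 ≤ 1 - p := by linarith
    calc (1 : ℝ) = Real.exp 2 * (1 / Real.exp 2) := by
          field_simp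
      _ ≤ Real.exp 2 * (1 - p) := mul_le_mul_of_nonneg_left h1 (Real.exp_pos _).le

private lemma le_of_sq_le_sq_PAR {a b : ℝ} (h : a ^ 2 ≤ b ^ 2) (hb : 0 ≤ b) : a ≤ b := by
  by_contra hc
  push Not at hc
  have h1 : b ^ 2 < a ^ 2 := pow_lt_pow_left₀ hc hb (by norm_num)
  linarith

private lemma big_PAR (T l n η : ℝ) (hT4 : 4 ≤ T) (hl1 : 1 ≤ l) (hn : 1 ≤ n) (hη1 : η ≤ 1)
    (h3 : T ^ 8 ≤ n ^ η) (h6 : l ^ 8 ≤ n ^ η) : 2 * T * l ≤ n := by
  have hn0 : 0 < n := by linarith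
  have h1 : n ^ η ≤ n := by
    calc n ^ η ≤ n ^ (1 : ℝ) := Real.rpow_le_rpow_of_exponent_le hn hη1
      _ = n := Real.rpow_one n
  have h2 : ((T * l) ^ 4) ^ 2 ≤ n ^ 2 := by
    calc ((T * l) ^ 4) ^ 2 = T ^ 8 * l ^ 8 := by ring
      _ ≤ n * n := mul_le_mul (h3.trans h1) (h6.trans h1) (by positivity) hn0.le
      _ = n ^ 2 := (sq n).symm
  have h4 : (T * l) ^ 4 ≤ n := by
    exact le_of_sq_le_sq_PAR h2 hn0.le
  have h5 : 4 ≤ T * l := by
    calc (4 : ℝ) = 4 * 1 := by norm_num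
      _ ≤ T * l := mul_le_mul hT4 hl1 (by norm_num) (by linarith)
  have h7 : (2 : ℝ) ≤ (T * l) ^ 3 := by
    calc (2 : ℝ) ≤ 4 ^ 3 := by norm_num
      _ ≤ (T * l) ^ 3 := pow_le_pow_left₀ (by norm_num) h5 3
  calc 2 * T * l = 2 * (T * l) := by ring
    _ ≤ (T * l) ^ 3 * (T * l) := mul_le_mul_of_nonneg_right h7 (by linarith)
    _ = (T * l) ^ 4 := by ring
    _ ≤ n := h4

private lemma ai_zero_PAR (L ρ : ℝ) (T : ℕ) : ai L ρ T 0 = 1 := by
  simp [ai]

theorem hPAR : StPR1 → StPR2 → StSIZ → StPAR := by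
  intro hPR1 hPR2 hSIZ p ε hp0 hp1 hε0 hε1
  obtain ⟨hp1', hL0, hL2⟩ := bb_bounds_PAR p hp0 hp1
  obtain ⟨L, hLdef⟩ : ∃ L, L = bb p := ⟨_, rfl⟩
  rw [← hLdef] at hL0 hL2
  obtain ⟨ρ₁, ρ₂, Cp, hρ1, hρ12, hCp, hρ2C, hρ1C, T0, hT0⟩ := hPR2 L (6 * ε) hL0 hL2 (by linarith)
  have hlC : 0 ≤ Real.log Cp := Real.log_nonneg hCp
  have hCp0 : 0 < Cp := by linarith
  have he1 : 1 ≤ Real.exp 1 := Real.one_le_exp (by norm_num)
  refine ⟨Cp * Real.exp 1, ?_, ?_⟩
  · calc (1 : ℝ) = 1 * 1 := by norm_num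
      _ ≤ Cp * Real.exp 1 := mul_le_mul hCp he1 (by norm_num) hCp0.le
  intro δ hδ
  obtain ⟨c3, hc3⟩ : ∃ c3, c3 = Cp * (6 + Real.log Cp) + 1 / L + Cp + 4 + Real.log Cp := ⟨_, rfl⟩
  have hc30 : 0 < c3 := by rw [hc3]; positivity
  obtain ⟨D, hD⟩ : ∃ D, D = c3 + 2 * (6 + Real.log Cp) + 5 / L + 10 + Real.log Cp := ⟨_, rfl⟩
  have h5L : 0 < 5 / L := by positivity
  have hD0 : 0 < D := by rw [hD]; positivity
  obtain ⟨η, hη⟩ : ∃ η, η = min ε (min δ 1) / D := ⟨_, rfl⟩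
  have hmin0 : 0 < min ε (min δ 1) := lt_min hε0 (lt_min hδ one_pos)
  have hη0 : 0 < η := by rw [hη]; positivity
  have hηD : η * D = min ε (min δ 1) := by
    rw [hη]
    field_simp
  have hηDε : η * D ≤ ε := by rw [hηD]; exact min_le_left _ _
  have hηDδ : η * D ≤ δ := by rw [hηD]; exact (min_le_right _ _).trans (min_le_left _ _)
  have hηD1 : η * D ≤ 1 := by rw [hηD]; exact (min_le_right _ _).trans (min_le_right _ _)
  have hcD : ∀ c : ℝ, c ≤ D → η * c ≤ η * D := fun c hc => mul_le_mul_of_nonneg_left hc hη0.le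
  have hη1 : η ≤ 1 := by
    have := hcD 1 (by rw [hD]; linarith)
    linarith
  obtain ⟨n1, hn1⟩ := hSIZ p ε η T0 hp0 hp1 hε0 hε1 hη0
  refine ⟨n1, ?_⟩
  intro n T th hn hW
  have hs := hn1 n T th hn hW
  obtain ⟨-, hth0, hth1⟩ := hW
  obtain ⟨hT04, hTn⟩ := hs.t4
  have hTge : T0 ≤ T := by omega
  have hT4n : 4 ≤ T := by omega
  have hnge : 1 ≤ n := by omega
  obtain ⟨hP1, hP2, hcA, hcB, hP3⟩ := hT0 T hTge
  have hT4 : (4 : ℝ) ≤ T := by exact_mod_cast hT4n
  have hTpos : (0 : ℝ) < T := by linarith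
  have hn1r : (1 : ℝ) ≤ n := by exact_mod_cast hnge
  have hn0 : (0 : ℝ) < n := by linarith
  obtain ⟨l, hl⟩ : ∃ l, l = Real.log n := ⟨_, rfl⟩
  have hl0' : 1 / η ≤ l := by rw [hl]; exact hs.t0
  have hηl : 1 ≤ η * l := by
    rw [div_le_iff₀ hη0] at hl0'
    linarith
  have hlge : D ≤ l := by
    have h1 : D ≤ 1 / η := by
      rw [le_div_iff₀ hη0]
      linarith
    exact h1.trans hl0'
  have hD10 : 10 ≤ D := by rw [hD]; linarith
  have hl10 : 10 ≤ l := hD10.trans hlge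
  have hl1 : 1 ≤ l := by linarith
  have hlpos : 0 < l := by linarith
  have ht3 : (T : ℝ) ^ 8 ≤ (n : ℝ) ^ η := hs.t3
  have hlT : Real.log T ≤ η * l / 8 := by
    have h1 := Real.log_le_log (by positivity) ht3
    rw [Real.log_pow, Real.log_rpow hn0, ← hl] at h1
    push_cast at h1
    linarith
  have hT1 : |L * T - 2 * l| ≤ η * l := by
    have := hs.t1
    rwa [← hLdef, ← hl] at this
  have hT2 : |L * T - 2 * l + 2 * Real.log T| ≤ 3 := by
    have := hs.t2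
    rwa [← hLdef, ← hl] at this
  have hhv : |hv p n T - (1 + th) * l| ≤ η * l := by
    have h1 := hs.t5 T (by omega) (by omega)
    rw [← hl] at h1
    have h2 : (T : ℝ) + 1 + th - T = 1 + th := by ring
    rwa [h2] at h1
  have hnT : 2 * (T : ℝ) * l ≤ n :=
    big_PAR T l n η hT4 hl1 hn1r hη1 ht3 (by rw [hl]; exact hs.t6)
  have hth3 : th ≤ 1 := by linarith
  have hlogT0 : 0 ≤ Real.log T := Real.log_nonneg (by linarith)
  have hη2 : (6 + Real.log Cp) * η ≤ 1 / 2 := by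
    have h1 := hcD (2 * (6 + Real.log Cp)) (by rw [hD]; linarith)
    linarith
  have hl2 : 5 / L + 3 + Real.log Cp ≤ l := by
    refine le_trans ?_ hlge
    rw [hD]
    linarith
  obtain ⟨R, hR⟩ : ∃ R, R = Real.log (n.factorial : ℝ) - n * Real.log n + n := ⟨_, rfl⟩
  have hR0 : 0 ≤ R := by
    rw [hR]
    linarith [fact_lower_PAR n hnge]
  have hR1 : R ≤ l + 1 := by
    rw [hR, hl]
    linarith [fact_upper_PAR n hnge]
  -- the functions of `ρ`
  obtain ⟨Af, hAf⟩ : ∃ f : ℝ → ℝ, f = fun ρ => As L ρ T := ⟨_, rfl⟩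
  obtain ⟨mf, hmf⟩ : ∃ f : ℝ → ℝ, f = fun ρ => Bs L ρ T / Af ρ := ⟨_, rfl⟩
  obtain ⟨Kf, hKf⟩ : ∃ f : ℝ → ℝ, f = fun ρ => n / (T - mf ρ) := ⟨_, rfl⟩
  obtain ⟨muf, hmuf⟩ : ∃ f : ℝ → ℝ, f = fun ρ => Real.log T + (T - 1) * L - Real.log ρ := ⟨_, rfl⟩
  obtain ⟨lamf, hlamf⟩ : ∃ f : ℝ → ℝ, f = fun ρ => Real.log (Kf ρ / Af ρ) - muf ρ * T -
    Real.log (om p T) := ⟨_, rfl⟩
  obtain ⟨Sf, hSf⟩ : ∃ f : ℝ → ℝ, f = fun ρ => Real.log (n.factorial : ℝ) - muf ρ * n -
    lamf ρ * Kf ρ + Kf ρ := ⟨_, rfl⟩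
  obtain ⟨κf, hκf⟩ : ∃ f : ℝ → ℕ → ℝ, f = fun ρ u => if 1 ≤ u ∧ u ≤ T then
    Real.exp (lamf ρ + muf ρ * u) * om p u else 0 := ⟨_, rfl⟩
  have hPR : ∀ ρ ∈ Set.Icc ρ₁ ρ₂, 0 < Af ρ ∧ 0 ≤ mf ρ ∧ mf ρ ≤ T - 1 ∧ 0 < Kf ρ ∧
      (∀ i, i < T → κf ρ (T - i) = Kf ρ / Af ρ * ai L ρ T i) ∧
      KK T (κf ρ) = Kf ρ ∧ ∑ u ∈ range (T + 1), (u : ℝ) * κf ρ u = n ∧
      ∑ u ∈ range (T + 1), ((T : ℝ) - u) * κf ρ u = mf ρ * Kf ρ ∧
      Sf ρ = Kf ρ * (mf ρ * (muf ρ - l) - T + mf ρ + 1 - Real.log (Kf ρ) + Real.log (Af ρ) +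
        hv p n T) + R := by
    intro ρ hρ
    have h := hPR1 p ρ n T hp0 hp1' (by linarith [hρ.1]) (by omega) hnge (Af ρ) (mf ρ) (Kf ρ) (muf ρ)
      (lamf ρ) (κf ρ) (by rw [hAf, hLdef]) (by rw [hmf, hLdef]) (by rw [hKf]) (by rw [hmuf, hLdef])
      (by rw [hlamf]) (by intro u; rw [hκf])
    rw [← hLdef, ← hl] at h
    obtain ⟨h1, h2, h3, h4, h5, h6, h7, h8, h9⟩ := h
    refine ⟨h1, h2, h3, h4, h5, h6, h7, h8, ?_⟩
    rw [hSf, hR, hl]
    simp only
    rw [h9, hl]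
  have hF : ∀ ρ ∈ Set.Icc ρ₁ ρ₂, 0 < Kf ρ ∧ (n : ℝ) / T ≤ Kf ρ ∧ Kf ρ ≤ n ∧
      |Sf ρ - Kf ρ * ((mf ρ - 2 / L + th) * l)| ≤ Kf ρ * (c3 * (η * l)) ∧
      lamf ρ ≤ -1 ∧ -lamf ρ ≤ l ^ 3 := by
    intro ρ hρ
    obtain ⟨h1, h2, h3, h4, -, -, -, -, h9⟩ := hPR ρ hρ
    obtain ⟨g1, g2, g3, -⟩ := hP3 ρ hρ.1 hρ.2
    have hρ0 : 0 < ρ := by linarith [hρ.1]
    have hlρ1 : -Real.log Cp ≤ Real.log ρ := by
      have h5 : 1 / Cp ≤ ρ := by
        refine le_trans ?_ hρ.1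
        rw [div_le_iff₀ hCp0]
        rw [div_le_iff₀ hρ1] at hρ1C
        linarith
      have h6 := Real.log_le_log (by positivity) h5
      rwa [one_div, Real.log_inv] at h6
    have hlρ2 : Real.log ρ ≤ Real.log Cp := Real.log_le_log hρ0 (hρ.2.trans hρ2C)
    have hmu : |muf ρ - 2 * l| ≤ (6 + Real.log Cp) * (η * l) := by
      have h5 : muf ρ - 2 * l = (L * T - 2 * l + 2 * Real.log T) - Real.log T - L - Real.log ρ := by
        rw [hmuf]
        ring
      have h6 : Real.log Cp ≤ Real.log Cp * (η * l) := le_mul_of_one_le_right hlC hηl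
      have h7 : (6 + Real.log Cp) * (η * l) = 6 * (η * l) + Real.log Cp * (η * l) := by ring
      rw [abs_le] at hT2
      rw [h5, h7, abs_le]
      constructor <;> linarith [hT2.1, hT2.2]
    have hmC : mf ρ ≤ Cp := by
      rw [hmf]
      simp only
      rw [div_le_iff₀ h1]
      rw [hAf]
      exact g3
    have := facts_PAR L l T (mf ρ) (Af ρ) (Kf ρ) (muf ρ) (hv p n T) th η Cp n R (Sf ρ) (lamf ρ)
      hL0 hη0 hη1 hCp hth0 hth3 hl0' hT4 hlT hT1 hmu h2 hmC h3 (by rw [hAf]; exact g1)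
      (by rw [hAf]; exact g2) hn0 hl.symm (by rw [hKf]) hhv hnT hR0 hR1 h9
      (by rw [hlamf]; simp only; rw [log_om_PAR p hp1' n T, ← hl]) hη2 hl2
    rw [← hc3] at this
    exact this
  -- continuity
  have hne : ∀ ρ ∈ Set.Icc ρ₁ ρ₂, Af ρ ≠ 0 := fun ρ hρ => (hPR ρ hρ).1.ne'
  have hcA' : ContinuousOn Af (Set.Icc ρ₁ ρ₂) := by rw [hAf]; exact hcA
  have hcm : ContinuousOn mf (Set.Icc ρ₁ ρ₂) := by rw [hmf]; exact hcB.div hcA' hne
  have hcK : ContinuousOn Kf (Set.Icc ρ₁ ρ₂) := by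
    rw [hKf]
    refine continuousOn_const.div (continuousOn_const.sub hcm) fun ρ hρ => ?_
    have := (hPR ρ hρ).2.2.1
    linarith
  have hcmu : ContinuousOn muf (Set.Icc ρ₁ ρ₂) := by
    rw [hmuf]
    refine continuousOn_const.sub (ContinuousOn.log continuousOn_id fun ρ hρ => ?_)
    have : 0 < ρ := by linarith [hρ.1]
    exact this.ne'
  have hclam : ContinuousOn lamf (Set.Icc ρ₁ ρ₂) := by
    rw [hlamf]
    refine ((ContinuousOn.log (hcK.div hcA' hne) fun ρ hρ => ?_).sub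
      (hcmu.mul continuousOn_const)).sub continuousOn_const
    exact (div_pos (hF ρ hρ).1 (hPR ρ hρ).1).ne'
  have hcS : ContinuousOn Sf (Set.Icc ρ₁ ρ₂) := by
    rw [hSf]
    exact ((continuousOn_const.sub (hcmu.mul continuousOn_const)).sub (hclam.mul hcK)).add hcK
  -- the values at the end points
  have hmem1 : ρ₁ ∈ Set.Icc ρ₁ ρ₂ := ⟨le_rfl, hρ12.le⟩
  have hmem2 : ρ₂ ∈ Set.Icc ρ₁ ρ₂ := ⟨hρ12.le, le_rfl⟩
  have hn9 : (n : ℝ) ^ (th + 3 * ε) ≤ n / T := by
    rw [le_div_iff₀ hTpos]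
    have h1 : (T : ℝ) ≤ (n : ℝ) ^ (9 * ε) := by
      calc (T : ℝ) = (T : ℝ) ^ 1 := (pow_one _).symm
        _ ≤ (T : ℝ) ^ 8 := pow_le_pow_right₀ (by linarith) (by norm_num)
        _ ≤ (n : ℝ) ^ η := ht3
        _ ≤ (n : ℝ) ^ (9 * ε) := Real.rpow_le_rpow_of_exponent_le hn1r (by
            have := hcD 1 (by rw [hD]; linarith)
            linarith)
    calc (n : ℝ) ^ (th + 3 * ε) * T ≤ (n : ℝ) ^ (1 - 9 * ε) * (n : ℝ) ^ (9 * ε) :=
          mul_le_mul (Real.rpow_le_rpow_of_exponent_le hn1r (by linarith)) h1 hTpos.le (by positivity)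
      _ = (n : ℝ) ^ ((1 - 9 * ε) + 9 * ε) := (Real.rpow_add hn0 _ _).symm
      _ = n := by
        rw [show (1 - 9 * ε) + 9 * ε = (1 : ℝ) by ring, Real.rpow_one]
  have hpw0 : 0 < (n : ℝ) ^ (th + 3 * ε) := Real.rpow_pos_of_pos hn0 _
  have hc3D : η * c3 ≤ ε := (hcD c3 (by rw [hD]; linarith)).trans hηDε
  have hc3D1 : η * c3 ≤ 1 := (hcD c3 (by rw [hD]; linarith)).trans hηD1
  have h2L : 1 ≤ 2 / L := by
    rw [le_div_iff₀ hL0]
    linarith
  have hS1 : Sf ρ₁ ≤ 0 := by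
    obtain ⟨f1, f2, f3, f4, -, -⟩ := hF ρ₁ hmem1
    rw [abs_le] at f4
    have h1 : mf ρ₁ ≤ 6 * ε := by
      rw [hmf]
      simp only
      rw [div_le_iff₀ (hPR ρ₁ hmem1).1, hAf]
      exact hP1
    have h2 : (mf ρ₁ - 2 / L + th) * l + c3 * (η * l) ≤ 0 := by
      have h3 : (mf ρ₁ - 2 / L + th) * l + c3 * (η * l) =
        (mf ρ₁ - 2 / L + th + η * c3) * l := by ring
      rw [h3]
      exact mul_nonpos_of_nonpos_of_nonneg (by linarith) hlpos.le
    have h4 := mul_nonpos_of_nonneg_of_nonpos f1.le h2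
    have h5 : Kf ρ₁ * ((mf ρ₁ - 2 / L + th) * l + c3 * (η * l)) =
      Kf ρ₁ * ((mf ρ₁ - 2 / L + th) * l) + Kf ρ₁ * (c3 * (η * l)) := by ring
    linarith [f4.2]
  have hS2 : (n : ℝ) ^ (th + 3 * ε) ≤ Sf ρ₂ := by
    obtain ⟨f1, f2, f3, f4, -, -⟩ := hF ρ₂ hmem2
    rw [abs_le] at f4
    have h1 : 2 / L + 1 ≤ mf ρ₂ := by
      rw [hmf]
      simp only
      rw [le_div_iff₀ (hPR ρ₂ hmem2).1, hAf]
      exact hP2
    have h2 : 1 ≤ (mf ρ₂ - 2 / L + th) * l - c3 * (η * l) := by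
      have h3 : (mf ρ₂ - 2 / L + th) * l - c3 * (η * l) =
        (mf ρ₂ - 2 / L + th - η * c3) * l := by ring
      rw [h3]
      have h4 : (1 / 2) * l ≤ (mf ρ₂ - 2 / L + th - η * c3) * l :=
        mul_le_mul_of_nonneg_right (by linarith) hlpos.le
      linarith
    have h4 := mul_le_mul_of_nonneg_left h2 f1.le
    have h5 : Kf ρ₂ * ((mf ρ₂ - 2 / L + th) * l - c3 * (η * l)) =
      Kf ρ₂ * ((mf ρ₂ - 2 / L + th) * l) - Kf ρ₂ * (c3 * (η * l)) := by ring
    linarith [f4.1]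
  obtain ⟨ρ, hρ, hSρ⟩ := intermediate_value_Icc hρ12.le hcS ⟨hS1.trans hpw0.le, hS2⟩
  obtain ⟨f1, f2, f3, f4, f5, f6⟩ := hF ρ hρ
  obtain ⟨a1, a2, a3, a4, a5, a6, a7, a8, a9⟩ := hPR ρ hρ
  obtain ⟨g1, g2, g3, g4⟩ := hP3 ρ hρ.1 hρ.2
  have hA1 : 1 ≤ Af ρ := by rw [hAf]; exact g1
  have hAC : Af ρ ≤ Cp := by rw [hAf]; exact g2
  have hCC : Cp ≤ Cp * Real.exp 1 := le_mul_of_one_le_right hCp0.le he1
  have hκT : κf ρ T = Kf ρ / Af ρ := by
    have h := a5 0 (by omega)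
    rw [Nat.sub_zero, ai_zero_PAR, mul_one] at h
    exact h
  refine ⟨κf ρ, lamf ρ, muf ρ, ?_⟩
  refine
    { eq := ?_, zer := ?_, sum := a7, ent := ?_, lam1 := f5, lam2 := ?_, mean := ?_, tail := ?_,
      top := ?_, nxt := ?_ }
  · intro u hu1 hu2
    rw [hκf]
    simp only
    rw [if_pos ⟨hu1, hu2⟩]
  · intro u hu
    rw [hκf]
    simp only
    rw [if_neg]
    rintro ⟨h1, h2⟩
    rcases hu with h | h <;> omega
  · rw [a6, ← hSρ, hSf]
  · rw [← hl]; exact f6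
  · -- mean
    rw [a8, a6, ← hLdef]
    have h1 : mf ρ * Kf ρ - (2 / L - th) * Kf ρ = Kf ρ * (mf ρ - 2 / L + th) := by ring
    rw [h1, abs_mul, abs_of_pos f1, mul_comm δ]
    refine mul_le_mul_of_nonneg_left ?_ f1.le
    rw [abs_le] at f4
    have h2 : Sf ρ ≤ Kf ρ * (η * l) := by
      rw [hSρ]
      calc (n : ℝ) ^ (th + 3 * ε) ≤ Kf ρ * 1 := by rw [mul_one]; exact hn9.trans f2
        _ ≤ Kf ρ * (η * l) := mul_le_mul_of_nonneg_left hηl f1.le
    have h3 : 0 ≤ Sf ρ := by rw [hSρ]; exact hpw0.le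
    have h4 : Kf ρ * ((mf ρ - 2 / L + th) * l) ≤ Kf ρ * ((c3 + 1) * η * l) := by
      have : Kf ρ * ((c3 + 1) * η * l) = Kf ρ * (c3 * (η * l)) + Kf ρ * (η * l) := by ring
      rw [this]
      linarith [f4.1]
    have h5 : Kf ρ * (-((c3 + 1) * η * l)) ≤ Kf ρ * ((mf ρ - 2 / L + th) * l) := by
      have : Kf ρ * (-((c3 + 1) * η * l)) = -(Kf ρ * (c3 * (η * l))) - Kf ρ * (η * l) := by ring
      rw [this]
      have h51 : 0 ≤ Kf ρ * (η * l) := by positivity
      linarith [f4.2]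
    have h6 := le_of_mul_le_mul_left h4 f1
    have h7 := le_of_mul_le_mul_left h5 f1
    have h8 : (c3 + 1) * η ≤ δ := by
      have := hcD (c3 + 1) (by rw [hD]; linarith)
      linarith
    have h9 := le_of_mul_le_mul_right h6 hlpos
    have h10 : (-((c3 + 1) * η)) * l ≤ (mf ρ - 2 / L + th) * l := by linarith
    have h11 := le_of_mul_le_mul_right h10 hlpos
    rw [abs_le]
    constructor <;> linarith
  · -- tail
    intro u hu
    rw [a6, ← hLdef]
    have hpos : 0 ≤ Kf ρ * (Cp * Real.exp 1) ^ (T - u + 1) *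
        Real.exp (-(L * ((T - u : ℕ) : ℝ) ^ 2 / 2)) := by positivity
    rcases Nat.eq_zero_or_pos u with h0 | h0
    · have h1 : κf ρ u = 0 := by
        rw [hκf]
        simp only
        rw [if_neg]
        omega
      rw [h1]
      exact hpos
    · obtain ⟨i, hi⟩ : ∃ i, i = T - u := ⟨_, rfl⟩
      have hiT : i < T := by omega
      have hui : T - i = u := by omega
      rw [← hi, ← hui, a5 i hiT]
      obtain ⟨b1, b2⟩ := g4 i hiT
      have h1 : Kf ρ / Af ρ ≤ Kf ρ := div_le_self f1.le hA1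
      have hρ20 : 0 < ρ₂ := by linarith
      calc Kf ρ / Af ρ * ai L ρ T i
          ≤ Kf ρ * (ρ₂ ^ i * Real.exp (-(L * (i * (i - 1)) / 2))) :=
            mul_le_mul h1 b2 b1.le f1.le
        _ = Kf ρ * ((ρ₂ * Real.exp (L / 2)) ^ i * Real.exp (-(L * (i : ℝ) ^ 2 / 2))) := by
            rw [mul_pow, mul_assoc, ← Real.exp_nat_mul, ← Real.exp_add]
            congr 3
            ring
        _ ≤ Kf ρ * ((Cp * Real.exp 1) ^ (i + 1) * Real.exp (-(L * (i : ℝ) ^ 2 / 2))) := by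
            refine mul_le_mul_of_nonneg_left ?_ f1.le
            refine mul_le_mul_of_nonneg_right ?_ (Real.exp_pos _).le
            calc (ρ₂ * Real.exp (L / 2)) ^ i ≤ (Cp * Real.exp 1) ^ i := by
                  refine pow_le_pow_left₀ (by positivity) ?_ i
                  exact mul_le_mul hρ2C (Real.exp_le_exp.2 (by linarith)) (Real.exp_pos _).le hCp0.le
              _ ≤ (Cp * Real.exp 1) ^ (i + 1) :=
                  pow_le_pow_right₀ (hCp.trans hCC) (Nat.le_succ i)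
        _ = Kf ρ * (Cp * Real.exp 1) ^ (i + 1) * Real.exp (-(L * (i : ℝ) ^ 2 / 2)) := by ring
  · -- top
    rw [a6, hκT]
    calc Kf ρ = Af ρ * (Kf ρ / Af ρ) := by
          field_simp
      _ ≤ Cp * Real.exp 1 * (Kf ρ / Af ρ) :=
          mul_le_mul_of_nonneg_right (hAC.trans hCC) (div_pos f1 a1).le
  · -- nxt
    have hρ0 : 0 < ρ := by linarith [hρ.1]
    have hq : 0 < 1 - p := by linarith
    have h1 : om p (T + 1) = om p T * ((1 - p) ^ T / ((T : ℝ) + 1)) := by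
      unfold om
      have h2 : (T + 1).choose 2 = T.choose 2 + T := by
        rw [Nat.choose_succ_succ' T 1, Nat.choose_one_right]
        ring
      rw [h2, pow_add, Nat.factorial_succ]
      push_cast
      have h3 : (T.factorial : ℝ) ≠ 0 := by exact_mod_cast T.factorial_ne_zero
      field_simp
    have hκT2 : κf ρ T = Real.exp (lamf ρ + muf ρ * T) * om p T := by
      rw [hκf]
      simp only
      rw [if_pos ⟨by omega, le_rfl⟩]
    have h2 : Real.exp (lamf ρ + muf ρ * ((T : ℝ) + 1)) * om p (T + 1) =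
        κf ρ T * (Real.exp (muf ρ) * (1 - p) ^ T / ((T : ℝ) + 1)) := by
      rw [h1, hκT2, show lamf ρ + muf ρ * ((T : ℝ) + 1) = (lamf ρ + muf ρ * T) + muf ρ by ring,
        Real.exp_add]
      ring
    have h3 : Real.exp (muf ρ) * (1 - p) ^ T = T * Real.exp (-L) / ρ := by
      have h4 : (1 - p) ^ T = Real.exp (-(T * L)) := by
        rw [hLdef]
        unfold bb
        rw [one_div, Real.log_inv, mul_neg, neg_neg, Real.exp_nat_mul, Real.exp_log hq]
      rw [h4, ← Real.exp_add, hmuf]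
      simp only
      rw [show Real.log T + ((T : ℝ) - 1) * L - Real.log ρ + -(T * L) =
        Real.log T + -L - Real.log ρ by ring, Real.exp_sub, Real.exp_add, Real.exp_log hTpos,
        Real.exp_log hρ0]
    have h4 : T * Real.exp (-L) / ρ / ((T : ℝ) + 1) ≤ Cp := by
      have h5 : 1 / ρ ≤ Cp := (one_div_le_one_div_of_le hρ1 hρ.1).trans hρ1C
      have h6 : Real.exp (-L) ≤ 1 := Real.exp_le_one_iff.2 (by linarith)
      have h7 : T * Real.exp (-L) / ((T : ℝ) + 1) ≤ 1 := by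
        rw [div_le_one (by positivity)]
        have : T * Real.exp (-L) ≤ T * 1 := mul_le_mul_of_nonneg_left h6 hTpos.le
        linarith
      calc T * Real.exp (-L) / ρ / ((T : ℝ) + 1) =
            (T * Real.exp (-L) / ((T : ℝ) + 1)) * (1 / ρ) := by ring
        _ ≤ 1 * Cp := mul_le_mul h7 h5 (by positivity) zero_le_one
        _ = Cp := one_mul _
    have h5 : κf ρ T ≤ n := by
      rw [hκT]
      exact (div_le_self f1.le hA1).trans f3
    have h6 : 0 ≤ κf ρ T := by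
      rw [hκT]
      exact (div_pos f1 a1).le
    rw [h2, h3]
    calc κf ρ T * (T * Real.exp (-L) / ρ / ((T : ℝ) + 1)) ≤ n * Cp :=
          mul_le_mul h5 h4 (by positivity) hn0.le
      _ ≤ n * (Cp * Real.exp 1) := mul_le_mul_of_nonneg_left hCC hn0.le
      _ = Cp * Real.exp 1 * n := by ring

end Pool.Agent.Helper66.UX
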