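import Pool.Agent.Helper69.UX.StE

set_option autoImplicit false

/-!
# Project UX, module UXF: the theorem
-/

namespace Pool.Agent.Helper66.UX

open Finset Filter Pool.Agent.Helper82.CN Pool.Agent.Helper11.PV Pool.Agent.Helper69.VX
  Pool.Agent.Helper69.UX

private lemma a0_ge_UXF (p : ℝ) (hp0 : 0 < p) (hp1 : p < 1) :
    ∀ᶠ n : ℕ in atTop, 1 ≤ a0 p n := by
  have hL0 : 0 < bb p := by
    unfold bb
    apply Real.log_pos
    rw [lt_div_iff₀ (by linarith)]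
    linarith
  obtain ⟨L, hL⟩ : ∃ L, L = bb p := ⟨_, rfl⟩
  rw [← hL] at hL0
  have h1 : Tendsto (fun n : ℕ => Real.log (n : ℝ) / L) atTop atTop :=
    (Real.tendsto_log_atTop.comp tendsto_natCast_atTop_atTop).atTop_div_const hL0
  have h2 : ∀ᶠ y : ℝ in atTop, ‖Real.log y‖ ≤ L * ‖y‖ := by
    have := Real.isLittleO_log_id_atTop.bound hL0
    simpa using this
  have h3 := h1.eventually (h2.and (eventually_ge_atTop (0 : ℝ)))
  filter_upwards [h3] with n hn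
  obtain ⟨hn1, hn2⟩ := hn
  show 1 ≤ Pool.Agent.Helper82.CN.al p n
  unfold Pool.Agent.Helper82.CN.al
  rw [← hL]
  obtain ⟨y, hy⟩ : ∃ y, y = Real.log (n : ℝ) / L := ⟨_, rfl⟩
  rw [← hy] at hn1 hn2 ⊢
  rw [Real.norm_eq_abs, Real.norm_eq_abs, abs_of_nonneg hn2] at hn1
  have h4 : Real.log y ≤ L * y := (le_abs_self _).trans hn1
  have h5 : 2 * Real.log y / L ≤ 2 * y := by
    rw [div_le_iff₀ hL0]
    linarith
  have h6 : 0 ≤ 2 * (1 - Real.log 2) / L := by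
    have h7 : Real.log 2 ≤ 1 := by
      have := Real.log_two_lt_d9
      linarith
    exact div_nonneg (by linarith) hL0.le
  have h8 : 2 * Real.log (n : ℝ) / L = 2 * y := by rw [hy]; ring
  rw [h8]
  linarith

private lemma sqrt_le_rpow_UXF {v n a : ℝ} (hn : 0 < n) (h : v ≤ n ^ (2 * a)) :
    √v ≤ n ^ a := by
  rw [Real.sqrt_le_iff]
  refine ⟨(Real.rpow_pos_of_pos hn a).le, ?_⟩
  rw [← Real.rpow_natCast, ← Real.rpow_mul hn.le]
  have h1 : a * ((2 : ℕ) : ℝ) = 2 * a := by push_cast; ring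
  rw [h1]
  exact h

theorem hUXF : StMcd → StUXT → StUXF := by
  intro hM hU p ε hp0 hp1 hε0
  have hp1' : p < 1 := by
    have : (0 : ℝ) < 1 / Real.exp 2 := by positivity
    linarith
  obtain ⟨e, he⟩ : ∃ e, e = min (ε / 24) (1 / 24) := ⟨_, rfl⟩
  have he0 : 0 < e := by
    rw [he]
    exact lt_min (by positivity) (by norm_num)
  have he1 : e ≤ 1 / 24 := by rw [he]; exact min_le_right _ _
  have he2 : 24 * e ≤ ε := by
    have : e ≤ ε / 24 := by rw [he]; exact min_le_left _ _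
    linarith
  obtain ⟨n1, hn1⟩ := hU p e hp0 hp1 he0 he1
  have h2 : ∀ᶠ n : ℕ in atTop, (2 : ℝ) ≤ (n : ℝ) ^ e :=
    ((tendsto_rpow_atTop he0).comp tendsto_natCast_atTop_atTop).eventually_ge_atTop 2
  obtain ⟨n2, hn2⟩ := eventually_atTop.1 ((a0_ge_UXF p hp0 hp1').and h2)
  refine ⟨max n1 (max n2 1), fun n hn hfr => ?_⟩
  have hnn1 : n1 ≤ n := (le_max_left _ _).trans hn
  have hnn2 : n2 ≤ n := (le_max_left _ _).trans ((le_max_right _ _).trans hn)
  have hnpos : 1 ≤ n := (le_max_right _ _).trans ((le_max_right _ _).trans hn)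
  obtain ⟨ha, hpw⟩ := hn2 n hnn2
  have hn0 : (0 : ℝ) < n := by exact_mod_cast hnpos
  have hn1r : (1 : ℝ) ≤ n := by exact_mod_cast hnpos
  obtain ⟨th, hth⟩ : ∃ th, th = Int.fract (a0 p n) := ⟨_, rfl⟩
  rw [← hth] at hfr ⊢
  by_cases hc : th ≤ 1 - 12 * e
  · have hfl : 1 ≤ ⌊a0 p n⌋ := by
      rw [Int.le_floor]
      exact_mod_cast ha
    obtain ⟨T, hT⟩ : ∃ T : ℕ, (T : ℤ) = ⌊a0 p n⌋ - 1 := ⟨(⌊a0 p n⌋ - 1).toNat, by omega⟩
    have hTr : (T : ℝ) = (⌊a0 p n⌋ : ℝ) - 1 := by exact_mod_cast hT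
    have hW : Win p e n T th := by
      refine ⟨?_, hfr, hc⟩
      have h3 := Int.floor_add_fract (a0 p n)
      rw [← hth] at h3
      rw [hTr]
      linarith
    have h4 := hn1 n T th hnn1 hW
    unfold sn
    refine sqrt_le_rpow_UXF hn0 (h4.trans ?_)
    exact Real.rpow_le_rpow_of_exponent_le hn1r (by linarith)
  · push Not at hc
    have h4 := (hM p n 0 hp0.le hp1'.le hnpos le_rfl).1
    unfold sn
    refine sqrt_le_rpow_UXF hn0 (h4.trans ?_)
    calc (2 : ℝ) * n ≤ (n : ℝ) ^ e * (n : ℝ) ^ (1 : ℝ) := by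
          rw [Real.rpow_one]
          exact mul_le_mul_of_nonneg_right hpw hn0.le
      _ = (n : ℝ) ^ (e + 1) := (Real.rpow_add hn0 _ _).symm
      _ ≤ (n : ℝ) ^ (2 * (th / 2 + ε)) := Real.rpow_le_rpow_of_exponent_le hn1r (by linarith)

end Pool.Agent.Helper66.UX
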